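import Mathlib

namespace Pool.Agent.Results.MP_876e19_co.KnownGraphs

open SimpleGraph

/-- `G` has a uniform path system. -/
def HasUniformPathSystem {V : Type} (G : SimpleGraph V) : Prop :=
  ∃ P : ∀ x y : V, G.Walk x y,
    (∀ x y : V, x ≠ y → (P x y).IsPath) ∧
    ∃ c : ℕ, ∀ v : V, {p : V × V | p.1 ≠ p.2 ∧ v ∈ (P p.1 p.2).support}.ncard = c

/-- Building a uniform path system from lists of vertices. -/
lemma of_lists {V : Type} (G : SimpleGraph V) (hconn : ∀ x y, G.Reachable x y)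
    (L : V → V → List V) (hne : ∀ x y, x ≠ y → L x y ≠ [])
    (hnd : ∀ x y, x ≠ y → (L x y).Nodup) (hch : ∀ x y, x ≠ y → (L x y).IsChain G.Adj)
    (hhd : ∀ x y (h : x ≠ y), (L x y).head (hne x y h) = x)
    (hlast : ∀ x y (h : x ≠ y), (L x y).getLast (hne x y h) = y)
    (c : ℕ) (hc : ∀ v, {p : V × V | p.1 ≠ p.2 ∧ v ∈ L p.1 p.2}.ncard = c) :
    HasUniformPathSystem G := by
  classical
  have key : ∀ x y : V, ∃ w : G.Walk x y, x ≠ y → w.support = L x y := by
    intro x y
    by_cases h : x = y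
    · exact ⟨(hconn x y).some, fun h' => absurd h h'⟩
    · refine ⟨(Walk.ofSupport (L x y) (hne x y h) (hch x y h)).copy (hhd x y h) (hlast x y h), ?_⟩
      intro _
      rw [Walk.support_copy, Walk.support_ofSupport]
  choose P hP using key
  refine ⟨P, ?_, c, ?_⟩
  · intro x y h
    rw [Walk.isPath_def, hP x y h]
    exact hnd x y h
  · intro v
    rw [← hc v]
    congr 1
    ext p
    constructor
    · rintro ⟨h1, h2⟩
      exact ⟨h1, by rwa [hP _ _ h1] at h2⟩
    · rintro ⟨h1, h2⟩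
      exact ⟨h1, by rwa [hP _ _ h1]⟩

section ham

/-- A cyclic enumeration gives a uniform path system. -/
lemma of_cyclic {V : Type} (G : SimpleGraph V) (n : ℕ) [NeZero n] (f : ZMod n ≃ V)
    (hf : ∀ i, G.Adj (f i) (f (i + 1))) : HasUniformPathSystem G := by
  classical
  have hnpos : 0 < n := Nat.pos_of_ne_zero (NeZero.ne n)
  -- the arc with `k + 1` vertices starting at `i`
  let A : ZMod n → ℕ → List V := fun i k => (List.range (k+1)).map (fun j : ℕ => f (i + (j : ZMod n)))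
  have hreach : ∀ x y, G.Reachable x y := by
    have h0 : ∀ k : ℕ, G.Reachable (f 0) (f (k : ZMod n)) := by
      intro k
      induction k with
      | zero => simp
      | succ k ih =>
        refine ih.trans ?_
        push_cast
        exact (hf _).reachable
    have h1 : ∀ x, G.Reachable (f 0) x := by
      intro x
      have := h0 (f.symm x).val
      rwa [ZMod.natCast_zmod_val, Equiv.apply_symm_apply] at this
    intro x y
    exact (h1 x).symm.trans (h1 y)
  let L : V → V → List V := fun x y => A (f.symm x) (f.symm y - f.symm x).val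
  have hval : ∀ z : ZMod n, z.val < n := fun z => ZMod.val_lt z
  have hne : ∀ x y, x ≠ y → L x y ≠ [] := by
    intro x y _; simp [L, A]
  refine of_lists G hreach L hne ?_ ?_ ?_ ?_ ({p : ZMod n × ZMod n | p.1 ≠ p.2 ∧
      (0 - p.1).val ≤ (p.2 - p.1).val}.ncard) ?_
  · intro x y _
    simp only [L, A]
    refine List.Nodup.map_on ?_ List.nodup_range
    intro a ha b hb hab
    rw [List.mem_range] at ha hb
    have h1 := f.injective hab
    have h2 : (a : ZMod n) = b := add_left_cancel h1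
    have ha' : a < n := lt_of_lt_of_le ha (hval _)
    have hb' : b < n := lt_of_lt_of_le hb (hval _)
    have := congrArg ZMod.val h2
    rwa [ZMod.val_natCast_of_lt ha', ZMod.val_natCast_of_lt hb'] at this
  · intro x y _
    simp only [L, A]
    rw [List.isChain_map]
    rw [List.isChain_iff_getElem]
    intro i hi
    simp only [List.getElem_range]
    have := hf (f.symm x + (i : ZMod n))
    push_cast
    rw [← add_assoc]
    exact this
  · intro x y _
    simp only [L, A]
    rw [List.head_map]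
    simp [List.range_succ_eq_map]
  · intro x y _
    simp only [L, A]
    rw [List.getLast_map]
    simp [List.getLast_range]
  · intro v
    have hmem : ∀ x y, v ∈ L x y ↔ (f.symm v - f.symm x).val ≤ (f.symm y - f.symm x).val := by
      intro x y
      simp only [L, A, List.mem_map, List.mem_range]
      constructor
      · rintro ⟨j, hj, rfl⟩
        rw [Equiv.symm_apply_apply, add_sub_cancel_left]
        have : j < n := lt_of_lt_of_le hj (hval _)
        rw [ZMod.val_natCast_of_lt this]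
        omega
      · intro h
        refine ⟨(f.symm v - f.symm x).val, by omega, ?_⟩
        rw [ZMod.natCast_zmod_val, add_sub_cancel, Equiv.apply_symm_apply]
    set t := f.symm v with ht
    refine Set.ncard_congr (fun p _ => (f.symm p.1 - t, f.symm p.2 - t)) ?_ ?_ ?_
    · rintro ⟨x, y⟩ ⟨h1, h2⟩
      rw [hmem] at h2
      refine ⟨?_, ?_⟩
      · intro h
        apply h1
        simpa using h
      · simpa using h2
    · rintro ⟨x, y⟩ ⟨x', y'⟩ _ _ h
      simp only [Prod.mk.injEq, sub_left_inj, EmbeddingLike.apply_eq_iff_eq] at h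
      exact Prod.ext h.1 h.2
    · rintro ⟨a, b⟩ ⟨h1, h2⟩
      refine ⟨(f (a + t), f (b + t)), ⟨?_, ?_⟩, ?_⟩
      · intro h
        apply h1
        simpa using h
      · rw [hmem]
        simpa using h2
      · simp

/-- Every (finite, connected) Hamiltonian graph has a uniform path system. -/
theorem of_hamiltonian {V : Type} [Fintype V] [DecidableEq V] (G : SimpleGraph V)
    (hG : G.Connected) (hH : G.IsHamiltonian) : HasUniformPathSystem G := by
  by_cases hcard : Fintype.card V = 1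
  · obtain ⟨a, ha⟩ := Fintype.card_eq_one_iff.mp hcard
    refine ⟨fun x y => (hG.preconnected x y).some, ?_, 0, ?_⟩
    · intro x y h
      exact absurd ((ha x).trans (ha y).symm) h
    · intro v
      rw [Set.ncard_eq_zero]
      ext p
      simp only [Set.mem_ofPred_eq, Set.mem_empty_iff_false, iff_false, not_and]
      intro h
      exact absurd ((ha p.1).trans (ha p.2).symm) h
  · obtain ⟨a, p, hp⟩ := hH hcard
    have hlen : p.length = Fintype.card V := hp.length_eq
    set n := Fintype.card V with hn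
    have hc := hp.isCycle
    have h3 : 3 ≤ n := by rw [← hlen]; exact hc.three_le_length
    have : NeZero n := ⟨by omega⟩
    have hinj : Function.Injective (fun i : ZMod n => p.getVert i.val) := by
      intro i j hij
      have hi := ZMod.val_lt i
      have hj := ZMod.val_lt j
      have := hc.getVert_injOn' (by simp only [Set.mem_ofPred_eq]; omega)
        (by simp only [Set.mem_ofPred_eq]; omega) hij
      exact ZMod.val_injective n this
    have hbij : Function.Bijective (fun i : ZMod n => p.getVert i.val) := by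
      rw [Fintype.bijective_iff_injective_and_card]
      exact ⟨hinj, by rw [ZMod.card]⟩
    refine of_cyclic G n (Equiv.ofBijective _ hbij) ?_
    intro i
    simp only [Equiv.ofBijective_apply]
    have hi := ZMod.val_lt i
    have hadj : G.Adj (p.getVert i.val) (p.getVert (i.val + 1)) :=
      p.adj_getVert_succ (by omega)
    by_cases hlt : i.val + 1 < n
    · have h5 : ((i.val + 1 : ℕ) : ZMod n) = i + 1 := by
        push_cast; rw [ZMod.natCast_zmod_val]
      have : (i + 1).val = i.val + 1 := by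
        rw [← h5, ZMod.val_natCast_of_lt hlt]
      rw [this]; exact hadj
    · have h1 : i.val + 1 = n := by omega
      have h2 : (i + 1).val = 0 := by
        have : i + 1 = 0 := by
          have h4 : ((i.val + 1 : ℕ) : ZMod n) = 0 := by rw [h1]; exact ZMod.natCast_self n
          push_cast at h4
          rwa [ZMod.natCast_zmod_val] at h4
        rw [this]; simp
      rw [h2, Walk.getVert_zero]
      have h6 : p.getVert (i.val + 1) = a := by
        rw [h1, ← hlen, Walk.getVert_length]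
      rw [h6] at hadj
      exact hadj

end ham

section diam

open Finset

variable {V : Type} [Fintype V] [DecidableEq V] (G : SimpleGraph V) [DecidableRel G.Adj]

/-- distinct non-adjacent ordered pairs -/
def T : Finset (V × V) := univ.filter (fun p => p.1 ≠ p.2 ∧ ¬ G.Adj p.1 p.2)

/-- common neighbours -/
def N (p : V × V) : Finset V := univ.filter (fun z => G.Adj p.1 z ∧ G.Adj z p.2)

lemma mem_T (p : V × V) : p ∈ T G ↔ p.1 ≠ p.2 ∧ ¬ G.Adj p.1 p.2 := by simp [T]

omit [DecidableEq V] in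
lemma mem_N (p : V × V) (z : V) : z ∈ N G p ↔ G.Adj p.1 z ∧ G.Adj z p.2 := by simp [N]

omit [DecidableEq V] in
lemma N_map (φ : G ≃g G) (p : V × V) : (N G (φ p.1, φ p.2)).card = (N G p).card := by
  refine (Finset.card_bij (fun z _ => φ z) ?_ ?_ ?_).symm
  · intro z hz
    rw [mem_N] at hz ⊢
    exact ⟨φ.map_adj_iff.mpr hz.1, φ.map_adj_iff.mpr hz.2⟩
  · intro a _ b _ h
    exact φ.injective h
  · intro z hz
    rw [mem_N] at hz
    refine ⟨φ.symm z, ?_, by simp⟩
    rw [mem_N]
    constructor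
    · rw [← φ.map_adj_iff]; simpa using hz.1
    · rw [← φ.map_adj_iff]; simpa using hz.2

/-- total weight at a vertex -/
noncomputable def W (z : V) : ℚ := ∑ t ∈ (T G).filter (fun t => z ∈ N G t), (1 : ℚ) / (N G t).card

lemma W_map (φ : G ≃g G) (z : V) : W G (φ z) = W G z := by
  unfold W
  refine (Finset.sum_bij (fun t _ => (φ t.1, φ t.2)) ?_ ?_ ?_ ?_).symm
  · intro t ht
    rw [Finset.mem_filter, mem_T, mem_N] at ht ⊢
    obtain ⟨⟨h1, h2⟩, h3, h4⟩ := ht
    refine ⟨⟨fun h => h1 (φ.injective h), fun h => h2 (φ.map_adj_iff.mp h)⟩,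
      φ.map_adj_iff.mpr h3, φ.map_adj_iff.mpr h4⟩
  · intro a _ b _ h
    simp only [Prod.mk.injEq] at h
    exact Prod.ext (φ.injective h.1) (φ.injective h.2)
  · intro t ht
    rw [Finset.mem_filter, mem_T, mem_N] at ht
    obtain ⟨⟨h1, h2⟩, h3, h4⟩ := ht
    refine ⟨(φ.symm t.1, φ.symm t.2), ?_, by simp⟩
    rw [Finset.mem_filter, mem_T, mem_N]
    refine ⟨⟨fun h => h1 (φ.symm.injective h), fun h => h2 ?_⟩, ?_, ?_⟩
    · rw [← φ.map_adj_iff] at h; simpa using h
    · rw [← φ.map_adj_iff]; simpa using h3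
    · rw [← φ.map_adj_iff]; simpa using h4
  · intro t _
    rw [N_map G φ t]

lemma exists_middle (htrans : ∀ x y : V, ∃ φ : G ≃g G, φ x = y)
    (h2 : ∀ x y, x ≠ y → ¬ G.Adj x y → ∃ z, G.Adj x z ∧ G.Adj z y) [Nonempty V] :
    ∃ (m : V × V → V) (c0 : ℕ), (∀ p ∈ T G, m p ∈ N G p) ∧
      ∀ v, ((T G).filter (fun p => m p = v)).card = c0 := by
  classical
  obtain ⟨o⟩ := ‹Nonempty V›
  set c0 := (univ.filter (fun y => o ≠ y ∧ ¬ G.Adj o y)).card with hc0
  have hc : ∀ x, (univ.filter (fun y => x ≠ y ∧ ¬ G.Adj x y)).card = c0 := by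
    intro x
    obtain ⟨φ, hφ⟩ := htrans o x
    refine (Finset.card_bij (fun z _ => φ z) ?_ ?_ ?_).symm
    · intro y hy
      simp only [Finset.mem_filter, Finset.mem_univ, true_and] at hy ⊢
      rw [← hφ]
      exact ⟨fun h => hy.1 (φ.injective h), fun h => hy.2 (φ.map_adj_iff.mp h)⟩
    · intro a _ b _ h
      exact φ.injective h
    · intro y hy
      simp only [Finset.mem_filter, Finset.mem_univ, true_and] at hy
      refine ⟨φ.symm y, ?_, by simp⟩
      simp only [Finset.mem_filter, Finset.mem_univ, true_and]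
      refine ⟨fun h => hy.1 ?_, fun h => hy.2 ?_⟩
      · rw [← hφ, h]; simp
      · rw [← φ.map_adj_iff, hφ] at h; simpa using h
  have hT : (T G).card = Fintype.card V * c0 := by
    rw [T, Finset.card_filter, Fintype.sum_prod_type]
    have h1 : ∀ x : V, ∑ y : V, (if x ≠ y ∧ ¬ G.Adj x y then 1 else 0) = c0 := by
      intro x
      rw [← Finset.card_filter]
      exact hc x
    rw [Finset.sum_congr rfl (fun x _ => h1 x), Finset.sum_const, Finset.card_univ, smul_eq_mul]
  have hNpos : ∀ p ∈ T G, 0 < (N G p).card := by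
    intro p hp
    rw [mem_T] at hp
    obtain ⟨z, hz⟩ := h2 p.1 p.2 hp.1 hp.2
    exact Finset.card_pos.mpr ⟨z, (mem_N G p z).mpr hz⟩
  have hWc : ∀ z, W G z = W G o := by
    intro z
    obtain ⟨φ, hφ⟩ := htrans o z
    rw [← hφ, W_map]
  -- double counting
  have hdc : ∀ s : Finset (V × V), s ⊆ T G →
      (s.card : ℚ) = ∑ z : V, ∑ t ∈ s.filter (fun t => z ∈ N G t), (1:ℚ) / (N G t).card := by
    intro s hs
    have h1 : (s.card : ℚ) = ∑ t ∈ s, ∑ z ∈ N G t, (1:ℚ) / (N G t).card := by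
      rw [Finset.card_eq_sum_ones]
      push_cast
      refine Finset.sum_congr rfl (fun t ht => ?_)
      rw [Finset.sum_const, nsmul_eq_mul]
      have : ((N G t).card : ℚ) ≠ 0 := by
        have := hNpos t (hs ht)
        exact_mod_cast this.ne'
      field_simp
    rw [h1]
    refine Finset.sum_comm' ?_
    intro x y
    simp only [Finset.mem_filter, Finset.mem_univ, and_true]
  have hnpos : 0 < Fintype.card V := Fintype.card_pos_iff.mpr ⟨o⟩
  have hW0 : W G o = c0 := by
    have h1 := hdc (T G) (Finset.Subset.refl _)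
    have h3 : ∑ z : V, ∑ t ∈ (T G).filter (fun t => z ∈ N G t), (1:ℚ) / (N G t).card
        = ∑ z : V, W G o := Finset.sum_congr rfl (fun z _ => hWc z)
    rw [h3, hT, Finset.sum_const, nsmul_eq_mul, Finset.card_univ] at h1
    push_cast at h1
    have : (Fintype.card V : ℚ) ≠ 0 := by exact_mod_cast hnpos.ne'
    exact (mul_left_cancel₀ this h1).symm
  -- Hall's condition
  have hall : ∃ f : {p // p ∈ T G} → V × Fin c0, Function.Injective f ∧
      ∀ p, f p ∈ (N G p.1) ×ˢ (univ : Finset (Fin c0)) := by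
    rw [← Finset.all_card_le_biUnion_card_iff_exists_injective]
    intro s
    have h1 : s.biUnion (fun p => (N G p.1) ×ˢ (univ : Finset (Fin c0)))
        = (s.biUnion (fun p => N G p.1)) ×ˢ (univ : Finset (Fin c0)) := by
      ext x
      simp [Finset.mem_biUnion, Finset.mem_product]
    rw [h1, Finset.card_product, Finset.card_univ, Fintype.card_fin]
    set s' : Finset (V × V) := s.map (Function.Embedding.subtype _) with hs'
    have hs'T : s' ⊆ T G := by
      intro p hp
      rw [hs', Finset.mem_map] at hp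
      obtain ⟨q, _, rfl⟩ := hp
      exact q.2
    have hcard : s'.card = s.card := Finset.card_map _
    have h3 := hdc s' hs'T
    have h4 : ∑ z : V, ∑ t ∈ s'.filter (fun t => z ∈ N G t), (1:ℚ) / (N G t).card
        ≤ ∑ z ∈ s.biUnion (fun p => N G p.1), W G z := by
      rw [← Finset.sum_subset (Finset.subset_univ (s.biUnion (fun p => N G p.1)))]
      · refine Finset.sum_le_sum (fun z _ => ?_)
        unfold W
        refine Finset.sum_le_sum_of_subset_of_nonneg ?_ ?_
        · exact Finset.filter_subset_filter _ hs'T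
        · intro t _ _
          positivity
      · intro z _ hz
        refine Finset.sum_eq_zero (fun t ht => ?_)
        exfalso
        rw [Finset.mem_filter, hs', Finset.mem_map] at ht
        obtain ⟨⟨q, hq, rfl⟩, hzq⟩ := ht
        exact hz (Finset.mem_biUnion.mpr ⟨q, hq, hzq⟩)
    rw [← h3, hcard, Finset.sum_congr rfl (fun z _ => hWc z), Finset.sum_const, nsmul_eq_mul, hW0] at h4
    exact_mod_cast h4
  obtain ⟨f, hfinj, hfmem⟩ := hall
  have hbij : Function.Bijective f := by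
    rw [Fintype.bijective_iff_injective_and_card]
    refine ⟨hfinj, ?_⟩
    rw [Fintype.card_coe, hT, Fintype.card_prod, Fintype.card_fin]
  refine ⟨fun p => if h : p ∈ T G then (f ⟨p, h⟩).1 else o, c0, ?_, ?_⟩
  · intro p hp
    simp only [dif_pos hp]
    exact (Finset.mem_product.mp (hfmem ⟨p, hp⟩)).1
  · intro v
    have hcu : (univ : Finset (Fin c0)).card = c0 := by simp
    refine Eq.trans ?_ hcu
    refine (Finset.card_bij (fun j _ => ((Equiv.ofBijective f hbij).symm (v, j)).1) ?_ ?_ ?_).symm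
    · intro j _
      rw [Finset.mem_filter]
      refine ⟨((Equiv.ofBijective f hbij).symm (v, j)).2, ?_⟩
      beta_reduce
      rw [dif_pos ((Equiv.ofBijective f hbij).symm (v, j)).2]
      have : f ((Equiv.ofBijective f hbij).symm (v, j)) = (v, j) :=
        (Equiv.ofBijective f hbij).apply_symm_apply (v, j)
      rw [Subtype.coe_eta, this]
    · intro a _ b _ h
      have h5 := (Equiv.ofBijective f hbij).symm.injective (Subtype.ext h)
      exact (Prod.mk.injEq _ _ _ _ ▸ h5).2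
    · intro p hp
      rw [Finset.mem_filter] at hp
      obtain ⟨hp1, hp2⟩ := hp
      beta_reduce at hp2
      rw [dif_pos hp1] at hp2
      refine ⟨(f ⟨p, hp1⟩).2, Finset.mem_univ _, ?_⟩
      have : (v, (f ⟨p, hp1⟩).2) = f ⟨p, hp1⟩ := Prod.ext hp2.symm rfl
      rw [this]
      have h6 : (Equiv.ofBijective f hbij).symm (f ⟨p, hp1⟩) = ⟨p, hp1⟩ :=
        (Equiv.ofBijective f hbij).symm_apply_apply ⟨p, hp1⟩
      rw [h6]

/-- Vertex-transitive graphs in which any two distinct non-adjacent vertices have a common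
neighbour have a uniform path system. -/
theorem of_diam_two (htrans : ∀ x y : V, ∃ φ : G ≃g G, φ x = y)
    (h2 : ∀ x y, x ≠ y → ¬ G.Adj x y → ∃ z, G.Adj x z ∧ G.Adj z y) [Nonempty V] :
    HasUniformPathSystem G := by
  classical
  obtain ⟨m, c0, hm, hc0⟩ := exists_middle G htrans h2
  let L : V → V → List V := fun x y => if G.Adj x y then [x, y] else [x, m (x, y), y]
  have hreach : ∀ x y, G.Reachable x y := by
    intro x y
    by_cases hxy : x = y
    · rw [hxy]
    · by_cases ha : G.Adj x y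
      · exact ha.reachable
      · obtain ⟨z, h1, h3⟩ := h2 x y hxy ha
        exact h1.reachable.trans h3.reachable
  have hmid : ∀ x y, x ≠ y → ¬ G.Adj x y → G.Adj x (m (x, y)) ∧ G.Adj (m (x, y)) y := by
    intro x y h ha
    have := hm (x, y) ((mem_T G (x, y)).mpr ⟨h, ha⟩)
    exact (mem_N G (x, y) _).mp this
  have hne : ∀ x y, x ≠ y → L x y ≠ [] := by
    intro x y _; simp only [L]; split_ifs <;> simp
  refine of_lists G hreach L hne ?_ ?_ ?_ ?_ (2 * (Fintype.card V - 1) + c0) ?_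
  · intro x y h
    simp only [L]
    split_ifs with ha
    · simp [h]
    · obtain ⟨h3, h4⟩ := hmid x y h ha
      simp [h, h3.ne, h4.ne]
  · intro x y h
    simp only [L]
    split_ifs with ha
    · simp [ha]
    · obtain ⟨h3, h4⟩ := hmid x y h ha
      simp [h3, h4]
  · intro x y h
    simp only [L]
    split_ifs with ha <;> simp
  · intro x y h
    simp only [L]
    split_ifs with ha <;> simp
  · intro v
    have hset : {p : V × V | p.1 ≠ p.2 ∧ v ∈ L p.1 p.2} =
        (((({v} : Finset V) ×ˢ (univ.erase v)) ∪ ((univ.erase v) ×ˢ ({v} : Finset V))) ∪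
          (T G).filter (fun p => m p = v) : Finset (V × V)) := by
      ext p
      obtain ⟨x, y⟩ := p
      simp only [L, Set.mem_ofPred_eq, Finset.coe_union, Set.mem_union, Finset.mem_coe,
        Finset.mem_product, Finset.mem_singleton, Finset.mem_erase, Finset.mem_univ, and_true,
        Finset.mem_filter, mem_T]
      constructor
      · rintro ⟨h, hv⟩
        by_cases ha : G.Adj x y
        · rw [if_pos ha] at hv
          simp only [List.mem_cons, List.not_mem_nil, or_false] at hv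
          rcases hv with rfl | rfl
          · exact Or.inl (Or.inl ⟨rfl, fun h' => h h'.symm⟩)
          · exact Or.inl (Or.inr ⟨h, rfl⟩)
        · rw [if_neg ha] at hv
          simp only [List.mem_cons, List.not_mem_nil, or_false] at hv
          rcases hv with rfl | rfl | rfl
          · exact Or.inl (Or.inl ⟨rfl, fun h' => h h'.symm⟩)
          · exact Or.inr ⟨⟨h, ha⟩, rfl⟩
          · exact Or.inl (Or.inr ⟨h, rfl⟩)
      · rintro ((⟨rfl, h⟩ | ⟨h, rfl⟩) | ⟨⟨h, ha⟩, rfl⟩)
        · refine ⟨fun h' => h h'.symm, ?_⟩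
          split_ifs <;> simp
        · refine ⟨h, ?_⟩
          split_ifs <;> simp
        · refine ⟨h, ?_⟩
          rw [if_neg ha]; simp
    rw [hset, Set.ncard_coe_finset, Finset.card_union_of_disjoint, Finset.card_union_of_disjoint,
      hc0 v, Finset.card_product, Finset.card_product, Finset.card_singleton,
      Finset.card_erase_of_mem (Finset.mem_univ v), Finset.card_univ]
    · ring
    · rw [Finset.disjoint_left]
      rintro ⟨x, y⟩ h1 h3
      simp only [Finset.mem_product, Finset.mem_singleton, Finset.mem_erase, Finset.mem_univ,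
        and_true] at h1 h3
      exact h3.1 h1.1
    · rw [Finset.disjoint_left]
      rintro ⟨x, y⟩ h1 h3
      simp only [Finset.mem_union, Finset.mem_product, Finset.mem_singleton, Finset.mem_erase,
        Finset.mem_univ, and_true, Finset.mem_filter, mem_T] at h1 h3
      obtain ⟨⟨h4, h5⟩, h6⟩ := h3
      obtain ⟨h7, h8⟩ := hmid x y h4 h5
      rw [h6] at h7 h8
      rcases h1 with ⟨h1, _⟩ | ⟨_, h1⟩
      · exact h7.ne h1
      · exact h8.ne h1.symm

end diam


section shift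

open Finset

variable {I A : Type} [Fintype I] [DecidableEq I] [AddCommGroup A] [Fintype A] [DecidableEq A]

/-- A graph on `I × A` invariant under translations by `A`: path systems from the base vertices
`(i, 0)` with equal total loads on the orbits give a uniform path system. -/
theorem of_shift (G : SimpleGraph (I × A))
    (hinv : ∀ (s : A) (x y : I × A), G.Adj x y → G.Adj (x.1, x.2 + s) (y.1, y.2 + s))
    (Q : I → I × A → List (I × A))
    (hQ : ∀ (i : I) (y : I × A), y ≠ (i, 0) → (Q i y).Nodup ∧ (Q i y).IsChain G.Adj ∧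
      (Q i y).head? = some (i, 0) ∧ (Q i y).getLast? = some y)
    (c : ℕ) (hc : ∀ a : I, ∑ i : I, ∑ y : I × A,
      (if y ≠ (i, 0) then ((Q i y).filter (fun w => w.1 = a)).length else 0) = c) :
    HasUniformPathSystem G := by
  classical
  let L : I × A → I × A → List (I × A) := fun x y =>
    (Q x.1 (y.1, y.2 - x.2)).map (fun w => (w.1, w.2 + x.2))
  have hy : ∀ x y : I × A, x ≠ y → (y.1, y.2 - x.2) ≠ (x.1, 0) := by
    intro x y h h'
    rw [Prod.mk.injEq] at h'
    exact h (Prod.ext h'.1.symm (sub_eq_zero.mp h'.2).symm)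
  have hne0 : ∀ (i : I) (y : I × A), y ≠ (i, 0) → Q i y ≠ [] := by
    intro i y h h'
    have := (hQ i y h).2.2.1
    rw [h'] at this
    simp at this
  have hne : ∀ x y, x ≠ y → L x y ≠ [] := by
    intro x y h h'
    have := List.map_eq_nil_iff.mp h'
    exact hne0 _ _ (hy x y h) this
  have hinj : ∀ s : A, Function.Injective (fun w : I × A => (w.1, w.2 + s)) := by
    intro s a b h
    simp only [Prod.mk.injEq, add_left_inj] at h
    exact Prod.ext h.1 h.2
  have hchain : ∀ x y, x ≠ y → (L x y).IsChain G.Adj := by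
    intro x y h
    rw [List.isChain_map]
    exact (hQ _ _ (hy x y h)).2.1.imp (fun a b hab => hinv x.2 a b hab)
  have hhd : ∀ x y (h : x ≠ y), (L x y).head (hne x y h) = x := by
    intro x y h
    have h1 := (hQ _ _ (hy x y h)).2.2.1
    have h2 : (L x y).head? = some x := by
      simp only [L, List.head?_map, h1, Option.map_some, zero_add]
    exact List.head_eq_iff_head?_eq_some _ |>.mpr h2
  have hlast : ∀ x y (h : x ≠ y), (L x y).getLast (hne x y h) = y := by
    intro x y h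
    have h1 := (hQ _ _ (hy x y h)).2.2.2
    have h2 : (L x y).getLast? = some y := by
      simp only [L, List.getLast?_map, h1, Option.map_some, sub_add_cancel]
    exact List.getLast_eq_iff_getLast?_eq_some _ |>.mpr h2
  have hreach : ∀ x y, G.Reachable x y := by
    intro x y
    by_cases h : x = y
    · rw [h]
    · exact ⟨(Walk.ofSupport (L x y) (hne x y h) (hchain x y h)).copy (hhd x y h) (hlast x y h)⟩
  refine of_lists G hreach L hne ?_ hchain hhd hlast c ?_
  · intro x y h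
    exact (hQ _ _ (hy x y h)).1.map (hinj x.2)
  · intro v
    have hset : {p : (I × A) × (I × A) | p.1 ≠ p.2 ∧ v ∈ L p.1 p.2} =
        ((univ.filter (fun p : (I × A) × (I × A) => p.1 ≠ p.2 ∧ v ∈ L p.1 p.2) :
          Finset ((I × A) × (I × A))) : Set ((I × A) × (I × A))) := by
      ext p; simp
    rw [hset, Set.ncard_coe_finset, Finset.card_filter, ← hc v.1]
    rw [Fintype.sum_prod_type, Fintype.sum_prod_type]
    refine Finset.sum_congr rfl (fun i _ => ?_)
    -- reindex the target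
    have h1 : ∀ s : A, ∑ y : I × A, (if (i, s) ≠ y ∧ v ∈ L (i, s) y then 1 else 0)
        = ∑ y : I × A, (if y ≠ (i, 0) ∧ (v.1, v.2 - s) ∈ Q i y then 1 else 0) := by
      intro s
      let e : I × A ≃ I × A :=
        { toFun := fun y => (y.1, y.2 + s)
          invFun := fun y => (y.1, y.2 - s)
          left_inv := fun y => by simp
          right_inv := fun y => by simp }
      rw [← Equiv.sum_comp e]
      refine Finset.sum_congr rfl (fun y _ => ?_)
      have h2 : (i, s) ≠ e y ↔ y ≠ (i, 0) := by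
        rw [not_iff_not]
        simp only [e, Equiv.coe_fn_mk, Prod.ext_iff]
        constructor
        · rintro ⟨h3, h4⟩
          exact ⟨h3.symm, by simpa using h4⟩
        · rintro ⟨h3, h4⟩
          exact ⟨h3.symm, by simp [h4]⟩
      have h3 : v ∈ L (i, s) (e y) ↔ (v.1, v.2 - s) ∈ Q i y := by
        simp only [L, e, Equiv.coe_fn_mk, add_sub_cancel_right, List.mem_map]
        constructor
        · rintro ⟨w, hw, rfl⟩
          simpa using hw
        · intro h
          exact ⟨_, h, by simp⟩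
      simp only [h2, h3]
    rw [Finset.sum_congr rfl (fun s _ => h1 s), Finset.sum_comm]
    refine Finset.sum_congr rfl (fun y _ => ?_)
    by_cases hyi : y ≠ (i, 0)
    · rw [if_pos hyi]
      simp only [hyi, true_and, ne_eq, not_false_eq_true]
      have h4 : ∑ s : A, (if (v.1, v.2 - s) ∈ Q i y then 1 else 0)
          = ∑ w : A, (if (v.1, w) ∈ Q i y then 1 else 0) :=
        Equiv.sum_comp (Equiv.subLeft v.2) (fun w => if (v.1, w) ∈ Q i y then 1 else 0)
      rw [h4, ← Finset.card_filter]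
      have hnd : ((Q i y).filter (fun w => decide (w.1 = v.1))).Nodup := (hQ i y hyi).1.filter _
      rw [← List.toFinset_card_of_nodup hnd]
      refine Finset.card_bij (fun w _ => (v.1, w)) ?_ ?_ ?_
      · intro w hw
        rw [Finset.mem_filter] at hw
        simp [hw.2]
      · intro a _ b _ h
        exact (Prod.mk.injEq _ _ _ _ ▸ h).2
      · intro w hw
        simp only [List.mem_toFinset, List.mem_filter, decide_eq_true_eq] at hw
        refine ⟨w.2, ?_, ?_⟩
        · rw [Finset.mem_filter]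
          refine ⟨mem_univ _, ?_⟩
          rw [← hw.2]; exact hw.1
        · rw [← hw.2]
    · rw [if_neg hyi]
      simp [hyi]

/-- transport along an isomorphism -/
theorem HasUniformPathSystem.iso {V W : Type} [Finite V] {G : SimpleGraph V} {G' : SimpleGraph W}
    (e : G ≃g G') (h : HasUniformPathSystem G) : HasUniformPathSystem G' := by
  obtain ⟨P, hP, c, hc⟩ := h
  refine ⟨fun x y => ((P (e.symm x) (e.symm y)).map e.toHom).copy (by simp) (by simp), ?_, c, ?_⟩
  · intro x y h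
    rw [Walk.isPath_copy]
    exact (hP _ _ (fun h' => h (e.symm.injective h'))).map e.injective
  · intro v
    rw [← hc (e.symm v)]
    refine Set.ncard_congr (fun p _ => (e.symm p.1, e.symm p.2)) ?_ ?_ ?_
    · rintro ⟨x, y⟩ ⟨h1, h2⟩
      refine ⟨fun h' => h1 (e.symm.injective h'), ?_⟩
      simp only [Walk.support_copy, Walk.support_map, List.mem_map] at h2
      obtain ⟨w, hw, hwv⟩ := h2
      have : w = e.symm v := by rw [← hwv]; simp
      rw [← this]; exact hw
    · rintro ⟨x, y⟩ ⟨x', y'⟩ _ _ h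
      simp only [Prod.mk.injEq, EmbeddingLike.apply_eq_iff_eq] at h
      exact Prod.ext h.1 h.2
    · rintro ⟨a, b⟩ ⟨h1, h2⟩
      refine ⟨(e a, e b), ⟨fun h' => h1 (e.injective h'), ?_⟩, by simp⟩
      simp only [Walk.support_copy, Walk.support_map, List.mem_map]
      refine ⟨e.symm v, ?_, by simp⟩
      have key : ∀ a' b', a' = a → b' = b → e.symm v ∈ (P a' b').support := by
        rintro _ _ rfl rfl
        exact h2
      exact key _ _ (by simp) (by simp)

end shift

/-- The Coxeter graph: 28 vertices `(i, j)`, `i < 4`, `j` modulo 7; `(0, j)` is joined to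
`(1, j)`, `(2, j)`, `(3, j)`, and for `i = 1, 2, 3` the vertex `(i, j)` is joined to
`(i, j + i)` and `(i, j - i)`. -/
def coxeterGraph : SimpleGraph (Fin 4 × Fin 7) where
  Adj x y := (x.1 = 0 ∧ y.1 ≠ 0 ∧ x.2 = y.2) ∨ (y.1 = 0 ∧ x.1 ≠ 0 ∧ x.2 = y.2) ∨
    (x.1 ≠ 0 ∧ x.1 = y.1 ∧ (y.2 = x.2 + Fin.ofNat 7 x.1.val ∨ x.2 = y.2 + Fin.ofNat 7 x.1.val))
  symm := ⟨by
    rintro x y (h | h | ⟨h1, h2, h3⟩)
    · exact Or.inr (Or.inl ⟨h.1, h.2.1, h.2.2.symm⟩)
    · exact Or.inl ⟨h.1, h.2.1, h.2.2.symm⟩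
    · refine Or.inr (Or.inr ⟨h2 ▸ h1, h2.symm, ?_⟩)
      rw [← h2]; exact h3.symm⟩
  loopless := ⟨by decide +kernel⟩

instance : DecidableRel coxeterGraph.Adj := fun x y => by
  unfold coxeterGraph; infer_instance

def dataCox : List (List (List ℕ)) := [
  [[], [0,7,8,1], [0,14,16,2], [0,21,24,3], [0,21,25,4], [0,14,19,5], [0,7,13,6], [0,7], [0,7,8], [0,7,8,9], [0,21,24,3,10], [0,7,13,12,11], [0,7,13,12], [0,7,13], [0,14], [0,14,19,17,15], [0,14,16], [0,14,19,17], [0,14,16,18], [0,14,19], [0,7,13,6,20], [0,21], [0,21,25,22], [0,14,16,2,23], [0,21,24], [0,21,25], [0,21,25,22,26], [0,21,24,27]],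
  [[7,0], [7,8,1], [7,8,9,2], [7,0,21,24,3], [7,13,12,11,4], [7,13,12,5], [7,13,6], [], [7,8], [7,8,9], [7,8,9,10], [7,13,12,11], [7,13,12], [7,13], [7,0,14], [7,8,1,15], [7,0,14,16], [7,0,14,19,17], [7,0,14,16,18], [7,0,14,19], [7,13,6,20], [7,0,21], [7,8,1,22], [7,13,6,27,23], [7,0,21,24], [7,0,21,25], [7,13,12,5,26], [7,13,6,27]],
  [[14,0], [14,0,7,8,1], [14,16,2], [14,19,17,3], [14,16,18,4], [14,19,5], [14,16,18,20,6], [14,0,7], [14,0,7,8], [14,16,2,9], [14,19,17,3,10], [14,19,5,12,11], [14,19,5,12], [14,0,7,13], [], [14,19,17,15], [14,16], [14,19,17], [14,16,18], [14,19], [14,16,18,20], [14,0,21], [14,0,21,25,22], [14,16,2,23], [14,0,21,24], [14,0,21,25], [14,19,5,26], [14,0,21,24,27]],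
  [[21,0], [21,25,22,1], [21,24,27,23,2], [21,24,3], [21,25,4], [21,0,14,19,5], [21,24,27,6], [21,0,7], [21,0,7,8], [21,0,7,8,9], [21,24,3,10], [21,25,4,11], [21,0,7,13,12], [21,0,7,13], [21,0,14], [21,25,22,1,15], [21,0,14,16], [21,24,3,17], [21,25,4,18], [21,0,14,19], [21,25,4,18,20], [], [21,25,22], [21,24,27,23], [21,24], [21,25], [21,25,22,26], [21,24,27]]]



/-- decoding of a vertex written as `7 i + j` -/
def dec7 (r : ℕ) [NeZero r] (c : ℕ) : Fin r × Fin 7 := (Fin.ofNat r (c / 7), Fin.ofNat 7 (c % 7))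

def Qcox (i : Fin 4) (y : Fin 4 × Fin 7) : List (Fin 4 × Fin 7) :=
  (((dataCox.getD i.val []).getD (7 * y.1.val + y.2.val) []).map (dec7 4))

theorem coxeter_uniform : HasUniformPathSystem coxeterGraph := by
  refine of_shift coxeterGraph ?_ Qcox ?_ 102 ?_
  · intro s x y h
    rcases h with h | h | ⟨h1, h2, h3⟩
    · exact Or.inl ⟨h.1, h.2.1, by rw [h.2.2]⟩
    · exact Or.inr (Or.inl ⟨h.1, h.2.1, by rw [h.2.2]⟩)
    · refine Or.inr (Or.inr ⟨h1, h2, ?_⟩)
      rcases h3 with h3 | h3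
      · left
        simp only
        rw [h3]; abel
      · right
        simp only
        rw [h3]; abel
  · decide +kernel
  · decide +kernel

/-- The truncation of a graph (for cubic graphs: every vertex is replaced by a triangle): its
vertices are the ordered pairs `(v, w)` of adjacent vertices, and `(v, w)` is joined to `(w, v)`
and to `(v, w')` for `w' ≠ w`. -/
def trunc {V : Type} (G : SimpleGraph V) : SimpleGraph {p : V × V // G.Adj p.1 p.2} where
  Adj p q := (q.1.1 = p.1.2 ∧ q.1.2 = p.1.1) ∨ (p.1.1 = q.1.1 ∧ p.1.2 ≠ q.1.2)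
  symm := ⟨by
    rintro p q (h | h)
    · exact Or.inl ⟨h.2.symm, h.1.symm⟩
    · exact Or.inr ⟨h.1.symm, h.2.symm⟩⟩
  loopless := ⟨by
    rintro ⟨⟨v, w⟩, h⟩ (h' | h')
    · exact h.ne h'.1
    · exact h'.2 rfl⟩

instance {V : Type} [DecidableEq V] (G : SimpleGraph V) : DecidableRel (trunc G).Adj :=
  fun p q => inferInstanceAs (Decidable ((q.1.1 = p.1.2 ∧ q.1.2 = p.1.1) ∨
    (p.1.1 = q.1.1 ∧ p.1.2 ≠ q.1.2)))

/-- The Petersen graph: 10 vertices `(i, j)`, `i < 2`, `j` modulo 5; `(0, j)` is joined to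
`(1, j)` and `(0, j ± 1)`, and `(1, j)` to `(1, j ± 2)`. -/
def petersenGraph : SimpleGraph (Fin 2 × Fin 5) where
  Adj x y := (x.1 ≠ y.1 ∧ x.2 = y.2) ∨
    (x.1 = y.1 ∧ (y.2 = x.2 + Fin.ofNat 5 (x.1.val + 1) ∨ x.2 = y.2 + Fin.ofNat 5 (x.1.val + 1)))
  symm := ⟨by
    rintro x y (h | ⟨h2, h3⟩)
    · exact Or.inl ⟨h.1.symm, h.2.symm⟩
    · refine Or.inr ⟨h2.symm, ?_⟩
      rw [← h2]; exact h3.symm⟩
  loopless := ⟨by decide +kernel⟩

instance : DecidableRel petersenGraph.Adj := fun x y => by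
  unfold petersenGraph; infer_instance

section model
variable {V I A : Type} [DecidableEq V] [DecidableEq I] [Fintype I] [AddCommGroup A] [Fintype A]
  [DecidableEq A]

/-- uniform path systems for truncations from a labelling of the darts -/
theorem trunc_of_model {r : ℕ} (G : SimpleGraph (Fin r × A))
    (a b : I → Fin r) (t : I → A)
    (h1 : ∀ x : I × A, G.Adj (a x.1, x.2) (b x.1, x.2 + t x.1))
    (h2 : ∀ i j : I, a i = a j → b i = b j → t i = t j → i = j)
    (h3 : ∀ p q : Fin r × A, G.Adj p q → ∃ i : I, a i = p.1 ∧ b i = q.1 ∧ q.2 = p.2 + t i)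
    (Q : I → I × A → List (I × A))
    (hQ : ∀ (i : I) (y : I × A), y ≠ (i, 0) → (Q i y).Nodup ∧
      (Q i y).IsChain (fun x y => ((a y.1 = b x.1 ∧ y.2 = x.2 + t x.1) ∧
        (b y.1 = a x.1 ∧ y.2 + t y.1 = x.2)) ∨ ((a x.1 = a y.1 ∧ x.2 = y.2) ∧
        ¬ (b x.1 = b y.1 ∧ x.2 + t x.1 = y.2 + t y.1))) ∧
      (Q i y).head? = some (i, 0) ∧ (Q i y).getLast? = some y)
    (c : ℕ) (hc : ∀ a : I, ∑ i : I, ∑ y : I × A,
      (if y ≠ (i, 0) then ((Q i y).filter (fun w => w.1 = a)).length else 0) = c) :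
    HasUniformPathSystem (trunc G) := by
  let F : I × A → {p : (Fin r × A) × (Fin r × A) // G.Adj p.1 p.2} := fun x =>
    ⟨((a x.1, x.2), (b x.1, x.2 + t x.1)), h1 x⟩
  have hF : Function.Bijective F := by
    constructor
    · rintro ⟨i, u⟩ ⟨j, v⟩ h
      simp only [F, Subtype.mk.injEq, Prod.mk.injEq] at h
      obtain ⟨⟨h4, h5⟩, h6, h7⟩ := h
      subst h5
      rw [h2 i j h4 h6 (add_left_cancel h7)]
    · rintro ⟨⟨p, q⟩, h⟩
      obtain ⟨i, h4, h5, h6⟩ := h3 p q h
      refine ⟨(i, p.2), ?_⟩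
      simp only [F, Subtype.mk.injEq, Prod.mk.injEq]
      exact ⟨Prod.ext h4 rfl, Prod.ext h5 h6.symm⟩
  let e := Equiv.ofBijective F hF
  have hadj : ∀ x y : I × A, ((trunc G).comap e).Adj x y ↔
      (((a y.1 = b x.1 ∧ y.2 = x.2 + t x.1) ∧
        (b y.1 = a x.1 ∧ y.2 + t y.1 = x.2)) ∨ ((a x.1 = a y.1 ∧ x.2 = y.2) ∧
        ¬ (b x.1 = b y.1 ∧ x.2 + t x.1 = y.2 + t y.1))) := by
    intro x y
    rw [SimpleGraph.comap_adj]
    simp only [e, Equiv.ofBijective_apply, F, trunc, Prod.mk.injEq, ne_eq]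
  refine HasUniformPathSystem.iso (SimpleGraph.Iso.comap e (trunc G)) ?_
  refine of_shift _ ?_ Q ?_ c hc
  · intro s x y h
    rw [hadj] at h ⊢
    rcases h with ⟨⟨h4, h5⟩, h6, h7⟩ | ⟨⟨h4, h5⟩, h6⟩
    · refine Or.inl ⟨⟨h4, ?_⟩, h6, ?_⟩
      · simp only
        rw [h5]; abel
      · simp only
        rw [← h7]; abel
    · refine Or.inr ⟨⟨h4, ?_⟩, ?_⟩
      · simp only
        rw [h5]
      · rintro ⟨h8, h9⟩
        apply h6
        refine ⟨h8, ?_⟩
        simp only at h9
        have : x.2 + t x.1 + s = y.2 + t y.1 + s := by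
          rw [add_right_comm, h9, add_right_comm]
        exact add_right_cancel this
  · intro i y hy
    obtain ⟨q1, q2, q3, q4⟩ := hQ i y hy
    exact ⟨q1, q2.imp (fun x y h => (hadj x y).mpr h), q3, q4⟩

end model

def dataTPet : List (List (List ℕ)) := [
  [[], [0,5,11,1], [0,5,11,6,12,2], [0,15,25,23,18,3], [0,10,9,4], [0,5], [0,5,11,6], [0,5,11,6,12,7], [0,10,9,14,8], [0,10,9], [0,10], [0,5,11], [0,5,11,6,12], [0,10,9,14,8,13], [0,10,9,14], [0,15], [0,5,11,1,16], [0,15,20,27,17], [0,15,25,23,18], [0,10,9,4,19], [0,15,20], [0,5,11,1,16,21], [0,15,20,27,22], [0,15,25,23], [0,10,9,4,19,24], [0,15,25], [0,5,11,1,16,26], [0,15,20,27], [0,15,25,23,28], [0,15,20,27,22,29]],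
  [[5,0], [5,11,1], [5,11,6,12,2], [5,10,9,14,8,3], [5,10,9,4], [], [5,11,6], [5,11,6,12,7], [5,10,9,14,8], [5,10,9], [5,10], [5,11], [5,11,6,12], [5,11,6,12,7,13], [5,10,9,14], [5,0,15], [5,11,1,16], [5,11,6,12,2,17], [5,0,15,25,23,18], [5,10,9,4,19], [5,0,15,20], [5,11,1,16,21], [5,0,15,20,27,22], [5,0,15,25,23], [5,11,1,16,26,24], [5,0,15,25], [5,11,1,16,26], [5,0,15,20,27], [5,0,15,25,23,28], [5,10,9,4,19,29]],
  [[10,0], [10,5,11,1], [10,5,11,6,12,2], [10,9,14,8,3], [10,9,4], [10,5], [10,5,11,6], [10,9,14,8,13,7], [10,9,14,8], [10,9], [], [10,5,11], [10,5,11,6,12], [10,9,14,8,13], [10,9,14], [10,0,15], [10,5,11,1,16], [10,0,15,20,27,17], [10,0,15,25,23,18], [10,9,4,19], [10,0,15,20], [10,5,11,1,16,21], [10,0,15,20,27,22], [10,0,15,25,23], [10,9,4,19,24], [10,0,15,25], [10,0,15,25,23,18,28,21,26], [10,0,15,20,27], [10,0,15,25,23,28], [10,9,4,19,29]],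
  [[15,0], [15,0,5,11,1], [15,20,27,17,2], [15,25,23,18,3], [15,0,10,9,4], [15,0,5], [15,0,5,11,6], [15,20,27,17,2,7], [15,0,10,9,14,8], [15,0,10,9], [15,0,10], [15,0,5,11], [15,0,5,11,6,12], [15,25,23,18,3,13], [15,0,10,9,14], [], [15,0,5,11,1,16], [15,20,27,17], [15,25,23,18], [15,0,10,9,4,19], [15,20], [15,25,23,28,21], [15,20,27,22], [15,25,23], [15,20,27,22,29,24], [15,25], [15,25,23,28,21,26], [15,20,27], [15,25,23,28], [15,20,27,22,29]],
  [[20,15,0], [20,27,17,2,7,12,6,1], [20,27,17,2], [20,25,23,18,3], [20,27,17,22,29,19,4], [20,15,0,5], [20,15,0,5,11,6], [20,27,17,2,7], [20,25,23,18,3,8], [20,15,0,10,9], [20,15,0,10], [20,15,0,5,11], [20,27,17,2,12], [20,27,17,2,7,13], [20,15,0,10,9,14], [20,15], [20,25,23,28,21,16], [20,27,17], [20,25,23,18], [20,27,22,29,19], [], [20,25,23,28,21], [20,27,22], [20,25,23], [20,27,22,29,24], [20,25], [20,27,22,29,24,26], [20,27], [20,25,23,28], [20,27,22,29]],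
  [[25,15,0], [25,23,28,21,16,1], [25,20,27,17,2], [25,23,18,3], [25,15,0,10,9,4], [25,15,0,5], [25,15,0,5,11,6], [25,23,18,3,13,7], [25,23,18,3,8], [25,15,0,10,9], [25,15,0,10], [25,15,0,5,11], [25,20,27,17,2,12], [25,23,18,3,13], [25,23,18,3,8,14], [25,15], [25,23,28,21,16], [25,20,27,17], [25,23,18], [25,20,27,22,29,19], [25,20], [25,23,28,21], [25,20,27,22], [25,23], [25,23,28,21,26,24], [], [25,23,28,21,26], [25,20,27], [25,23,28], [25,20,27,22,29]]]



/-- decoding of a vertex written as `5 i + j` -/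
def dec5 (r : ℕ) [NeZero r] (c : ℕ) : Fin r × Fin 5 := (Fin.ofNat r (c / 5), Fin.ofNat 5 (c % 5))

def dataPet : List (List (List ℕ)) := [
  [[], [0,1], [0,1,2], [0,4,3], [0,4], [0,5], [0,1,6], [0,5,7], [0,5,8], [0,4,9]],
  [[5,0], [5,0,1], [5,7,2], [5,8,3], [5,0,4], [], [5,8,6], [5,7], [5,8], [5,7,9]]]


def QPet (i : Fin 2) (y : Fin 2 × Fin 5) : List (Fin 2 × Fin 5) :=
  (((dataPet.getD i.val []).getD (5 * y.1.val + y.2.val) []).map (dec5 2))

theorem petersen_uniform : HasUniformPathSystem petersenGraph := by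
  refine of_shift petersenGraph ?_ QPet ?_ 24 ?_
  · intro s x y h
    rcases h with h | ⟨h2, h3⟩
    · exact Or.inl ⟨h.1, by rw [h.2]⟩
    · refine Or.inr ⟨h2, ?_⟩
      rcases h3 with h3 | h3
      · left
        simp only
        rw [h3]; abel
      · right
        simp only
        rw [h3]; abel
  · decide +kernel
  · decide +kernel

def QTPet (i : Fin 6) (y : Fin 6 × Fin 5) : List (Fin 6 × Fin 5) :=
  (((dataTPet.getD i.val []).getD (5 * y.1.val + y.2.val) []).map (dec5 6))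

theorem trunc_petersen_uniform : HasUniformPathSystem (trunc petersenGraph) := by
  refine trunc_of_model petersenGraph (![0,0,0,1,1,1] : Fin 6 → Fin 2)
    (![1,0,0,0,1,1] : Fin 6 → Fin 2) (![0,1,4,0,2,3] : Fin 6 → Fin 5) ?_ ?_ ?_ QTPet ?_ 131 ?_
  · decide +kernel
  · decide +kernel
  · decide +kernel
  · decide +kernel
  · decide +kernel

def dataTCox : List (List (List ℕ)) := [
  [[], [0,21,28,36,22,1], [0,21,28,36,29,37,23,2], [0,14,63,70,80,66,17,3], [0,14,63,77,74,67,18,4], [0,7,42,56,54,47,12,5], [0,21,35,34,27,6], [0,7], [0,21,28,36,22,1,8], [0,7,42,49,58,44,9], [0,14,63,70,80,66,17,10], [0,14,63,77,74,67,18,11], [0,7,42,56,54,47,12], [0,21,35,34,27,6,13], [0,14], [0,21,28,36,22,1,15], [0,7,42,49,58,44,9,16], [0,14,63,70,80,66,17], [0,14,63,77,74,67,18], [0,7,42,56,54,47,12,19], [0,21,35,34,27,6,20], [0,21], [0,21,28,36,22], [0,21,28,36,29,37,23], [0,14,63,70,80,66,17,3,24], [0,21,35,34,41,33,40,32,25], [0,21,35,34,41,33,26], [0,21,35,34,27], [0,21,28],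 [0,21,35,28,36,22,29], [0,21,28,36,29,37,30], [0,21,28,36,29,37,30,38,31], [0,21,35,34,41,33,40,32], [0,21,35,34,41,33], [0,21,35,34], [0,21,35], [0,21,28,36], [0,21,28,36,29,37], [0,21,28,36,29,37,30,38], [0,21,35,34,41,33,40,32,39], [0,21,35,34,41,33,40], [0,21,35,34,41], [0,7,42], [0,21,28,36,22,1,8,43], [0,7,42,49,58,44], [0,7,42,56,54,61,52,45], [0,7,42,49,58,51,60,46], [0,7,42,56,54,47], [0,21,35,34,27,6,13,48], [0,7,42,49], [0,21,28,36,22,1,8,43,50], [0,7,42,49,58,51], [0,7,42,56,54,61,52], [0,7,42,49,58,44,51,60,46,53], [0,7,42,56,54], [0,21,35,34,27,6,13,48,55], [0,7,42,56], [0,21,28,36,22,1,8,43,57], [0,14,7,42,49,58], [0,7,42,56,54,61,52,59], [0,7,42,49,58,51,60], [0,7,42,56,54,61], [0,21,35,34,27,6,13,48,62], [0,14,63], [0,14,63,77,74,81,71,64], [0,7,42,49,58,44,9,16,65], [0,14,63,70,80,66], [0,14,63,77,74,67], [0,7,42,56,54,47,12,19,68], [0,21,35,34,27,6,20,69], [0,14,63,70], [0,14,63,77,74,81,71], [0,7,42,49,58,44,9,16,65,72], [0,14,63,70,80,73],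 [0,14,63,77,74], [0,14,63,77,74,81,71,78,75], [0,14,63,70,80,73,83,76], [0,14,63,77], [0,14,63,77,74,81,71,78], [0,14,63,70,80,73,83,76,79], [0,14,63,70,80], [0,14,63,77,74,81], [0,7,42,56,54,47,12,19,68,82], [0,14,63,70,80,73,83]],
  [[7,0], [7,14,0,21,28,36,22,1], [7,42,49,58,44,9,2], [7,14,63,70,80,66,17,3], [7,14,63,77,74,67,18,4], [7,42,56,54,47,12,5], [7,0,21,35,34,27,6], [], [7,0,21,28,36,22,1,8], [7,42,49,58,44,9], [7,14,63,70,80,66,17,10], [7,0,14,63,77,74,67,18,11], [7,42,56,54,47,12], [7,0,21,35,34,27,6,13], [7,14], [7,0,21,28,36,22,1,15], [7,42,49,58,44,9,16], [7,14,63,70,80,66,17], [7,14,63,77,74,67,18], [7,42,56,54,47,12,19], [7,0,21,35,34,27,6,20], [7,0,21], [7,0,21,28,36,22], [7,0,21,28,36,29,37,23], [7,14,63,70,80,66,17,3,24], [7,14,63,77,74,67,18,4,25], [7,0,21,35,34,41,33,26], [7,0,21,35,34,27], [7,0,21,28], [7,0,21,28,36,29], [7,0,21,28,36,29,37,30], [7,14,63,70,80,66,17,3,24,31], [7,0,21,35,34,41,33,40,32], [7,0,21,35,34,41,33], [7,14,0,21,35,34],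 [7,0,21,35], [7,0,21,28,36], [7,0,21,28,36,29,37], [7,0,21,28,36,29,37,30,38], [7,14,63,77,74,67,18,4,25,39], [7,0,21,35,34,41,33,40], [7,0,21,35,34,41], [7,42], [7,42,56,54,61,52,59,50,43], [7,42,49,58,44], [7,42,56,54,61,52,45], [7,42,49,58,51,60,46], [7,42,56,54,47], [7,0,21,35,34,27,6,13,48], [7,42,49], [7,42,49,56,54,47,61,52,45,59,50], [7,42,49,58,51], [7,42,56,54,61,52], [7,42,49,58,51,60,53], [7,42,56,54], [7,42,49,58,51,60,53,62,55], [7,42,56], [7,42,56,54,61,52,59,50,57], [7,42,49,58], [7,42,56,54,61,52,59], [7,42,49,58,51,60], [7,42,56,54,61], [7,42,49,58,51,60,53,62], [7,14,63], [7,14,63,77,74,81,71,64], [7,42,49,58,44,9,16,65], [7,14,63,70,80,66], [7,14,63,77,74,67], [7,42,56,54,47,12,19,68], [7,14,63,70,80,73,83,69], [7,14,63,70], [7,14,63,77,74,81,71], [7,42,49,58,44,9,16,65,72], [7,14,63,70,80,73], [7,14,63,77,74], [7,14,63,77,74,81,71,78,75], [7,14,63,70,80,73,83,76], [7,0,14,63,77], [7,14,63,77,74,81,71,78], [7,42,49,58,44,9,16,65,79],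 [7,14,63,70,80], [7,14,63,77,74,81], [7,42,56,54,47,12,19,68,82], [7,14,63,70,80,73,83]],
  [[14,0], [14,0,21,28,36,22,1], [14,7,42,49,58,44,9,2], [14,63,70,80,66,17,3], [14,63,77,74,67,18,4], [14,7,42,56,54,47,12,5], [14,0,21,35,34,27,6], [14,7], [14,0,21,28,36,22,1,8], [14,7,42,49,58,44,9], [14,63,70,80,66,17,10], [14,63,77,74,67,18,11], [14,7,42,56,54,47,12], [14,0,21,35,34,27,6,13], [], [14,63,77,74,81,71,64,15], [14,0,7,42,49,58,44,9,16], [14,63,70,80,66,17], [14,63,77,74,67,18], [14,7,42,56,54,47,12,19], [14,63,70,80,73,83,69,20], [14,0,21], [14,0,21,28,36,22], [14,0,21,28,36,29,37,23], [14,63,70,80,66,17,3,24], [14,63,77,74,67,18,4,25], [14,0,21,35,34,41,33,26], [14,0,21,35,34,27], [14,0,21,28], [14,0,21,28,36,29], [14,0,21,28,36,29,37,30], [14,63,70,80,66,17,3,24,31], [14,63,77,74,67,18,4,25,32], [14,0,21,35,34,41,33], [14,0,21,35,34], [14,0,21,35], [14,0,21,28,36], [14,0,21,28,36,29,37], [14,0,21,28,36,29,37,30,38], [14,63,77,74,67,18,4,25,39],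 [14,0,21,35,34,41,33,40], [14,0,21,35,34,41], [14,7,42], [14,0,21,28,36,22,1,8,43], [14,7,42,49,58,44], [14,7,42,56,54,61,52,45], [14,7,42,49,58,51,60,46], [14,7,42,56,54,47], [14,0,21,35,34,27,6,13,48], [14,7,42,49], [14,7,42,56,54,61,52,59,50], [14,7,42,49,58,51], [14,7,42,56,54,61,52], [14,7,42,49,58,51,60,53], [14,7,42,56,54], [14,7,42,49,58,51,60,53,62,55], [14,7,42,56], [14,7,42,56,54,61,52,59,50,57], [14,7,42,49,58], [14,7,42,56,54,61,52,59], [14,7,42,49,58,51,60], [14,7,42,56,54,61], [14,7,42,49,58,51,60,53,62], [14,63], [14,63,77,74,81,71,64], [14,63,70,80,73,83,76,79,65], [14,63,70,80,66], [14,63,77,74,67], [14,63,77,74,81,71,78,75,68], [14,63,70,80,73,83,69], [14,63,77,70], [14,63,77,74,81,71], [14,63,70,80,73,83,76,79,72], [14,63,70,80,73], [14,63,77,74], [14,63,77,74,81,71,78,75], [14,63,70,80,73,83,76], [14,63,77], [14,63,77,74,81,71,78], [14,63,70,80,73,83,76,79], [14,63,70,80], [14,63,77,74,81], [14,63,77,74,81,71,78,75,82], [14,63,70,80,73,83]],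
  [[21,0], [21,28,36,22,1], [21,28,36,29,37,23,2], [21,0,14,63,70,80,66,17,3], [21,35,34,41,33,40,32,25,4], [21,35,34,41,33,26,5], [21,35,34,27,6], [21,0,7], [21,28,36,22,1,8], [21,0,7,42,49,58,44,9], [21,0,14,63,70,80,66,17,10], [21,0,14,63,77,74,67,18,11], [21,0,7,42,56,54,47,12], [21,35,34,27,6,13], [21,0,14], [21,28,36,22,1,15], [21,28,36,29,37,23,2,16], [21,0,14,63,70,80,66,17], [21,0,14,63,77,74,67,18], [21,35,34,41,33,26,5,19], [21,35,34,27,6,20], [], [21,28,36,22], [21,28,36,29,37,23], [21,28,36,29,37,30,38,24], [21,35,34,41,33,40,32,25], [21,35,34,41,33,26], [21,35,34,27], [21,28], [21,28,36,29], [21,28,36,29,37,30], [21,28,36,29,37,30,38,31], [21,35,34,41,33,40,32], [21,35,34,41,33], [21,35,34], [21,35], [21,28,36], [21,28,36,29,37], [21,28,36,29,37,30,38], [21,35,28,36,29,37,30,38,31,39], [21,35,34,41,33,40], [21,35,34,41], [21,0,7,42], [21,28,36,22,1,8,43], [21,0,7,42,49,58,44], [21,0,7,42,56,54,61,52,45], [21,0,7,42,49,58,51,60,46], [21,0,7,42,56,54,47],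 [21,28,36,22,1,8,43,57,55,48], [21,0,7,42,49], [21,28,36,22,1,8,43,50], [21,0,7,42,49,58,51], [21,0,7,42,56,54,61,52], [21,35,34,27,6,13,48,62,53], [21,0,7,42,56,54], [21,35,34,27,6,13,48,55], [21,0,7,42,56], [21,28,36,22,1,8,43,57], [21,0,7,42,49,58], [21,0,7,42,56,54,61,52,59], [21,0,7,42,49,58,51,60], [21,0,7,42,56,54,61], [21,35,34,27,6,13,48,62], [21,0,14,63], [21,28,36,22,1,15,64], [21,28,36,29,37,23,2,16,65], [21,0,14,63,70,80,66], [21,0,14,63,77,74,67], [21,35,34,41,33,26,5,19,68], [21,28,35,34,27,6,20,69], [21,0,14,63,70], [21,28,36,22,1,15,64,71], [21,28,36,29,37,23,2,16,65,72], [21,0,14,63,70,80,73], [21,0,14,63,77,74], [21,28,36,22,1,15,64,78,75], [21,35,34,27,6,20,69,76], [21,0,14,63,77], [21,28,36,22,1,15,64,78], [21,35,34,27,6,20,69,76,79], [21,0,14,63,70,80], [21,0,14,63,77,74,81], [21,28,36,22,1,15,64,78,75,82], [21,35,34,27,6,20,69,83]],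
  [[28,21,0], [28,36,29,22,1], [28,36,29,37,23,2], [28,36,29,37,30,38,24,3], [28,35,34,41,33,40,32,25,4], [28,35,34,41,33,26,5], [28,35,34,27,6], [28,21,0,7], [28,36,22,1,8], [28,36,29,37,23,2,9], [28,36,29,37,30,38,24,3,10], [28,35,34,41,33,40,32,25,4,11], [28,35,34,27,41,33,26,5,12], [28,35,34,27,6,13], [28,21,0,14], [28,36,22,1,15], [28,36,29,37,23,2,16], [28,21,0,14,63,70,80,66,17], [28,21,0,14,63,77,74,67,18], [28,35,34,41,33,26,5,19], [28,35,34,27,6,20], [28,21], [28,36,22], [28,36,29,37,23], [28,36,29,37,30,38,24], [28,35,34,41,33,40,32,25], [28,35,34,41,33,26], [28,35,34,27], [], [28,36,29], [28,36,29,37,23,30], [28,36,29,37,30,38,31], [28,35,34,41,33,40,32], [28,35,34,41,33], [28,35,34], [28,35], [28,36], [28,36,29,37], [28,36,29,37,30,38], [28,35,34,41,33,26,40,32,39], [28,35,34,41,33,40], [28,35,34,41], [28,21,0,7,42], [28,36,22,1,8,43], [28,36,29,37,23,2,9,44], [28,36,22,1,8,43,50,59,45], [28,35,34,27,6,13,48,62,53,46], [28,21,0,7,42,56,54,47],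 [28,35,34,27,6,13,48], [28,21,0,7,42,49], [28,36,22,1,8,43,50], [28,21,0,7,42,49,58,51], [28,36,22,1,8,43,50,59,52], [28,35,34,27,6,13,48,62,53], [28,21,0,7,42,56,54], [28,35,34,27,6,13,48,55], [28,21,0,7,42,56], [28,36,22,1,8,43,57], [28,21,0,7,42,49,58], [28,36,22,1,8,43,50,59], [28,21,0,7,42,49,58,51,60], [28,21,0,7,42,56,54,61], [28,35,34,27,6,13,48,62], [28,21,0,14,63], [28,36,22,1,15,64], [28,36,29,37,23,2,16,65], [28,21,0,14,63,70,80,66], [28,21,0,14,63,77,74,67], [28,36,22,1,15,64,78,75,68], [28,35,34,27,6,20,69], [28,21,0,14,63,70], [28,36,22,1,15,64,71], [28,36,29,37,23,2,16,65,72], [28,21,0,14,63,70,80,73], [28,21,0,14,63,77,74], [28,36,22,1,15,64,78,75], [28,35,34,27,6,20,69,76], [28,21,0,14,63,77], [28,36,22,1,15,64,78], [28,21,35,34,41,27,6,20,69,76,79], [28,21,0,14,63,70,80], [28,36,22,1,15,64,71,81], [28,36,22,1,15,64,78,75,82], [28,21,35,34,41,27,6,13,20,69,83]],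
  [[35,21,0], [35,28,36,22,1], [35,28,36,29,37,23,2], [35,28,36,29,37,30,38,24,3], [35,34,41,33,40,32,25,4], [35,34,41,33,26,5], [35,34,27,6], [35,28,21,0,7], [35,28,36,22,1,8], [35,28,36,29,37,23,2,9], [35,28,36,29,37,30,38,24,3,10], [35,34,41,33,40,32,25,4,11], [35,34,41,33,26,5,12], [35,34,27,6,13], [35,21,0,14], [35,28,36,22,1,15], [35,28,36,29,37,23,2,16], [35,21,0,14,63,70,80,66,17], [35,34,41,33,40,32,25,4,18], [35,34,41,33,26,5,19], [35,34,27,6,20], [35,21], [35,28,36,22], [35,28,36,29,37,23], [35,28,36,29,37,30,38,24], [35,34,41,33,40,32,25], [35,34,41,33,26], [35,34,27], [35,28], [35,28,36,29], [35,28,36,29,37,30], [35,34,41,33,40,32,39,31], [35,34,41,33,40,32], [35,34,41,33], [35,34], [], [35,28,36], [35,21,28,36,29,37], [35,28,36,29,37,30,38], [35,34,41,33,40,32,39], [35,34,41,33,40], [35,34,41], [35,21,0,7,42], [35,28,36,22,1,8,43], [35,21,0,7,42,49,58,44], [35,21,0,7,42,56,54,61,52,45], [35,34,27,6,13,48,62,53,46], [35,34,41,33,26,5,12,47],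 [35,34,27,6,13,48], [35,21,0,7,42,49], [35,28,36,22,1,8,43,50], [35,21,0,7,42,49,58,51], [35,21,0,7,42,56,54,61,52], [35,34,27,6,13,48,62,53], [35,21,0,7,42,56,54], [35,34,27,6,13,48,55], [35,21,0,7,42,56], [35,34,27,6,13,48,55,57], [35,21,0,7,42,49,58], [35,28,36,22,1,8,43,50,59], [35,34,27,6,13,48,62,53,60], [35,21,0,7,42,56,54,61], [35,34,27,6,13,48,62], [35,21,0,14,63], [35,28,36,22,1,15,64], [35,28,36,29,37,23,2,16,65], [35,21,0,14,63,70,80,66], [35,21,0,14,63,77,74,67], [35,34,41,33,26,5,19,68], [35,34,27,6,20,69], [35,21,0,14,63,70], [35,28,36,22,1,15,64,71], [35,34,27,6,20,69,76,79,72], [35,34,27,6,20,69,83,73], [35,21,0,14,63,77,74], [35,34,41,33,26,5,19,68,75], [35,34,27,6,20,69,76], [35,21,0,14,63,77], [35,28,36,22,1,15,64,78], [35,34,27,6,20,69,76,79], [35,21,0,14,63,70,80], [35,21,0,14,63,77,74,81], [35,34,41,33,26,5,19,68,82], [35,34,27,6,20,69,83]],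
  [[42,7,14,0], [42,7,0,21,28,36,22,1], [42,49,58,44,9,2], [42,56,54,61,52,45,10,3], [42,49,58,51,60,46,11,4], [42,56,54,47,12,19,5], [42,7,0,21,35,34,27,6], [42,7], [42,7,0,21,28,36,22,1,8], [42,49,58,44,9], [42,56,54,61,52,45,10], [42,49,58,51,60,46,11], [42,56,54,47,12], [42,7,0,21,35,34,27,6,13], [42,7,14], [42,7,0,21,28,36,22,1,15], [42,56,49,58,44,9,2,16], [42,56,54,61,52,45,10,17], [42,49,58,51,60,46,11,18], [42,56,54,47,12,19], [42,7,0,21,35,34,27,6,20], [42,7,0,21], [42,7,0,21,28,36,22], [42,49,58,44,9,2,23], [42,56,54,61,52,45,10,3,24], [42,49,58,51,60,46,11,4,25], [42,49,56,54,47,12,5,26], [42,7,0,21,35,34,27], [42,7,0,21,28], [42,7,0,21,28,36,29], [42,49,58,44,9,2,23,30], [42,49,58,44,9,2,23,30,38,31], [42,56,54,47,12,5,26,40,32], [42,7,0,21,35,34,41,33], [42,7,0,21,35,34], [42,7,0,21,35], [42,7,0,21,28,36], [42,49,58,44,9,2,23,37], [42,49,58,44,9,2,23,30,38], [42,49,58,51,60,46,11,4,25,39], [42,56,54,47,12,5,26,40], [42,7,0,21,35,34,41], [],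 [42,56,54,61,52,59,50,43], [42,49,58,44], [42,56,54,61,52,45], [42,49,58,51,60,46], [42,56,54,47], [42,49,58,51,60,53,62,48], [42,49], [42,56,54,61,52,59,50], [42,49,58,51], [42,56,54,61,52], [42,49,58,51,60,53], [42,56,54], [42,49,58,51,60,53,62,55], [42,56], [42,56,54,61,52,59,50,57], [42,49,58], [42,56,54,61,52,59], [42,49,58,51,60], [42,56,54,61], [42,49,58,51,60,53,62], [42,7,14,63], [42,7,14,63,77,74,81,71,64], [42,49,58,44,9,16,65], [42,7,14,63,70,80,66], [42,7,14,63,77,74,67], [42,56,54,47,12,19,68], [42,7,14,63,70,80,73,83,69], [42,7,14,63,70], [42,7,14,63,77,74,81,71], [42,49,58,44,9,16,65,72], [42,7,14,63,70,80,73], [42,7,14,63,77,74], [42,56,54,47,12,19,68,75], [42,7,14,63,70,80,73,83,76], [42,7,14,63,77], [42,56,54,47,12,19,68,75,78], [42,49,58,44,9,16,65,79], [42,7,14,63,70,80], [42,7,14,63,77,74,81], [42,56,54,47,12,19,68,82], [42,7,14,63,70,80,73,83]],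
  [[49,42,7,0], [49,42,7,0,21,28,36,22,1], [49,58,44,9,2], [49,56,54,61,52,45,10,3], [49,58,51,60,46,11,4], [49,56,54,47,12,5], [49,58,51,60,53,62,48,13,6], [49,42,7], [49,56,54,61,52,59,50,43,8], [49,58,44,9], [49,56,54,61,52,45,10], [49,58,51,60,46,11], [49,56,54,47,12], [49,58,44,51,60,53,62,48,13], [49,42,7,14], [49,56,54,61,52,59,50,43,8,15], [49,58,44,9,16], [49,56,54,61,52,45,10,17], [49,58,51,60,46,11,18], [49,56,54,47,12,19], [49,58,51,60,53,62,48,13,20], [49,42,7,0,21], [49,42,7,0,21,28,36,22], [49,58,44,9,2,23], [49,56,54,61,52,45,10,3,24], [49,58,51,60,46,11,4,25], [49,56,54,47,12,5,26], [49,42,7,0,21,35,34,27], [49,42,7,0,21,28], [49,58,44,9,2,23,37,29], [49,58,44,9,2,23,30], [49,58,44,9,2,23,30,38,31], [49,56,54,47,12,5,26,40,32], [49,56,54,47,12,5,26,33], [49,42,7,0,21,35,34], [49,42,7,0,21,35], [49,42,7,0,21,28,36], [49,58,44,9,2,23,37], [49,58,44,9,2,23,30,38], [49,58,51,60,46,11,4,25,39], [49,56,54,47,12,5,26,40], [49,42,7,0,21,35,34,41],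 [49,42], [49,56,54,61,52,59,50,43], [49,58,44], [49,56,54,61,52,45], [49,58,51,60,46], [49,56,54,47], [49,58,51,60,53,62,48], [], [49,56,54,61,52,59,50], [49,58,51], [49,56,54,61,52], [49,58,51,60,53], [49,56,54], [49,58,51,60,53,62,55], [49,56], [49,56,54,61,52,59,50,57], [49,58], [49,56,54,61,52,59], [49,58,51,60], [49,56,54,61], [49,58,51,60,53,62], [49,42,7,14,63], [49,42,7,14,63,77,74,81,71,64], [49,58,44,9,16,65], [49,42,7,14,63,70,80,66], [49,58,51,60,46,11,18,67], [49,42,56,54,47,12,19,68], [49,58,44,9,16,65,79,76,69], [49,42,7,14,63,70], [49,42,7,14,63,77,74,81,71], [49,58,44,9,16,65,72], [49,42,7,14,63,70,80,73], [49,42,7,14,63,77,74], [49,56,54,47,12,19,68,75], [49,58,44,9,2,16,65,79,76], [49,42,7,14,63,77], [49,56,54,47,12,19,68,75,78], [49,58,44,9,16,65,79], [49,42,7,14,63,70,80], [49,42,7,14,63,77,74,81], [49,56,54,47,12,19,68,82], [49,58,44,9,16,65,79,76,83]],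
  [[56,49,42,7,14,0], [56,54,61,52,59,50,43,8,1], [56,49,58,44,9,2], [56,54,61,52,45,10,3], [56,49,58,51,60,46,11,4], [56,54,47,12,5], [56,42,7,0,21,35,34,27,6], [56,42,7], [56,54,61,52,59,50,43,8], [56,49,58,44,9], [56,54,61,52,45,10], [56,49,58,51,60,46,11], [56,54,47,12], [56,49,58,51,60,53,62,48,13], [56,42,7,14], [56,54,61,52,59,50,43,8,15], [56,49,58,44,9,16], [56,54,61,52,45,10,17], [56,49,58,51,60,46,11,18], [56,54,47,12,19], [56,49,58,51,60,53,62,48,13,20], [56,42,7,0,21], [56,42,7,0,21,28,36,22], [56,49,58,44,9,2,23], [56,54,61,52,45,10,3,24], [56,49,58,51,60,46,11,4,25], [56,54,47,12,5,26], [56,42,7,0,21,35,34,27], [56,42,7,0,21,28], [56,42,7,0,21,28,36,29], [56,49,58,44,9,2,23,30], [56,54,61,52,45,10,3,24,31], [56,54,47,12,5,26,40,32], [56,54,47,12,5,26,33], [56,42,7,0,21,35,34], [56,42,7,0,21,35], [56,42,7,0,21,28,36], [56,49,58,44,9,2,23,37], [56,54,61,52,45,10,3,24,38], [56,54,47,12,5,26,40,32,39], [56,54,47,12,5,26,40], [56,42,7,0,21,35,34,41],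 [56,42], [56,54,61,52,59,50,43], [56,42,49,58,44], [56,54,61,52,45], [56,49,58,51,60,46], [56,54,47], [56,49,58,51,60,53,62,48], [56,49], [56,54,61,52,59,50], [56,49,58,51], [56,54,61,52], [56,49,58,51,60,53], [56,54], [56,49,58,51,60,53,62,55], [], [56,54,61,52,59,50,57], [56,49,58], [56,54,61,52,59], [56,49,58,51,60], [56,54,61], [56,49,58,51,60,53,62], [56,42,7,14,63], [56,54,47,12,19,68,75,78,64], [56,49,58,44,9,16,65], [56,42,7,14,63,70,80,66], [56,42,7,14,63,77,74,67], [56,54,47,12,19,68], [56,49,58,44,9,16,65,79,76,69], [56,42,7,14,63,70], [56,42,7,14,63,77,74,81,71], [56,54,47,12,19,68,82,72], [56,42,7,14,63,70,80,73], [56,42,7,14,63,77,74], [56,54,47,12,19,68,75], [56,49,58,44,9,16,65,79,76], [56,42,7,14,63,77], [56,54,47,12,19,68,75,78], [56,49,58,44,9,16,65,79], [56,42,7,14,63,70,80], [56,42,7,14,63,77,74,81], [56,54,47,12,19,68,82], [56,42,7,14,63,70,80,73,83]],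
  [[63,14,0], [63,70,77,74,81,71,64,15,1], [63,14,7,42,49,58,44,9,2], [63,70,80,66,17,3], [63,77,74,67,18,4], [63,14,7,42,56,54,47,12,5], [63,14,0,21,35,34,27,6], [63,14,7], [63,77,74,81,71,64,15,8], [63,14,7,42,49,58,44,9], [63,70,80,66,17,10], [63,77,74,67,18,11], [63,14,0,7,42,56,54,47,12], [63,70,80,73,83,69,20,13], [63,14], [63,77,74,81,71,64,15], [63,70,80,73,83,76,79,65,16], [63,70,80,66,17], [63,77,74,67,18], [63,14,7,42,56,54,47,12,19], [63,70,80,73,83,69,20], [63,14,0,21], [63,14,0,21,28,36,22], [63,14,0,21,28,36,29,37,23], [63,70,80,66,17,3,24], [63,77,74,67,18,4,25], [63,14,0,21,35,34,41,33,26], [63,14,0,21,35,34,27], [63,14,0,21,28], [63,14,0,21,28,36,29], [63,14,0,21,28,36,29,37,30], [63,70,80,66,17,3,24,31], [63,77,74,67,18,4,25,32], [63,14,0,21,35,34,41,33], [63,14,0,21,35,34], [63,14,0,21,35], [63,14,0,21,28,36], [63,14,0,21,28,36,29,37], [63,70,80,66,17,3,24,38], [63,77,74,67,18,4,25,39], [63,77,74,67,18,4,25,32,40], [63,14,0,21,35,34,41],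 [63,14,7,42], [63,77,74,81,71,64,15,8,43], [63,14,7,42,49,58,44], [63,70,80,66,17,10,45], [63,77,74,67,18,11,46], [63,14,7,42,56,54,47], [63,70,80,73,83,69,20,13,48], [63,14,7,42,49], [63,70,80,66,17,10,45,59,50], [63,14,7,42,49,58,51], [63,70,80,66,17,10,45,52], [63,70,80,73,83,69,20,13,48,62,53], [63,14,7,42,56,54], [63,70,80,73,83,69,20,13,48,55], [63,14,7,42,56], [63,14,7,0,21,28,36,22,1,8,43,57], [63,14,7,42,49,58], [63,70,80,66,17,10,45,59], [63,77,74,67,18,11,46,60], [63,14,7,42,56,54,61], [63,77,74,67,18,11,46,53,62], [], [63,77,74,81,71,64], [63,70,80,73,83,76,79,65], [63,70,80,66], [63,77,74,67], [63,77,74,81,71,78,75,68], [63,70,80,73,83,69], [63,70], [63,77,74,81,71], [63,70,80,73,83,76,79,72], [63,70,80,73], [63,77,74], [63,77,74,81,71,78,75], [63,70,80,73,83,76], [63,77], [63,77,74,81,71,78], [63,70,80,73,83,76,79], [63,70,80], [63,77,74,81], [63,70,80,66,73,83,76,79,72,82], [63,70,80,73,83]],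
  [[70,63,14,0], [70,77,74,81,71,64,15,1], [70,80,73,83,76,79,65,16,2], [70,80,66,17,3], [70,77,74,67,18,4], [70,63,14,7,42,56,54,47,12,5], [70,80,73,83,69,20,6], [70,63,14,7], [70,77,74,81,71,64,15,8], [70,80,73,83,76,79,65,16,9], [70,80,66,17,3,10], [70,77,74,67,18,11], [70,63,14,7,42,56,54,47,12], [70,80,73,83,69,20,13], [70,63,14], [70,77,74,81,71,64,15], [70,80,73,83,76,79,65,16], [70,80,66,17], [70,77,74,67,18], [70,77,74,81,71,78,75,68,19], [70,80,73,83,69,20], [70,63,14,0,21], [70,63,14,0,21,28,36,22], [70,80,66,17,3,24,38,30,23], [70,80,66,17,3,24], [70,77,74,67,18,4,25], [70,63,14,0,21,35,34,41,33,26], [70,80,73,83,69,20,6,27], [70,63,14,0,21,28], [70,63,14,0,21,28,36,29], [70,80,66,17,3,24,38,30], [70,80,66,17,3,24,31], [70,77,74,67,18,4,25,32], [70,63,14,0,21,35,34,41,33], [70,63,14,0,21,35,34], [70,63,14,0,21,35], [70,63,14,0,21,28,36], [70,80,66,17,3,24,38,30,37], [70,80,66,17,3,24,38], [70,77,74,67,18,4,25,39], [70,77,74,67,18,4,25,32,40],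 [70,63,14,0,21,35,34,41], [70,63,14,7,42], [70,77,74,81,71,64,15,8,43], [70,63,14,7,42,49,58,44], [70,80,66,17,10,45], [70,77,74,67,18,11,46], [70,63,14,7,42,56,54,47], [70,80,73,83,69,20,13,48], [70,63,14,7,42,49], [70,80,66,17,10,45,59,50], [70,63,14,7,42,49,58,51], [70,80,66,17,10,45,52], [70,77,74,67,18,11,46,53], [70,63,14,7,42,56,54], [70,80,73,83,69,20,13,48,55], [70,63,14,7,42,56], [70,80,66,17,10,45,59,50,57], [70,63,14,7,42,49,58], [70,80,66,17,10,45,59], [70,77,74,67,18,11,46,60], [70,80,66,17,10,45,52,61], [70,80,73,83,69,20,13,48,62], [70,63], [70,77,74,81,71,64], [70,80,73,83,76,79,65], [70,80,66], [70,77,74,67], [70,77,74,81,71,78,75,68], [70,80,73,83,69], [], [70,77,74,81,71], [70,80,73,83,76,79,72], [70,80,73], [70,77,74], [70,77,74,81,71,78,75], [70,80,73,83,76], [70,77], [70,77,74,81,71,78], [70,80,73,83,76,79], [70,80], [70,77,74,81], [70,63,77,74,67,81,71,78,75,68,82], [70,80,73,83]],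
  [[77,63,14,0], [77,74,81,71,64,15,1], [77,63,14,7,42,49,58,44,9,2], [77,70,80,66,17,3], [77,74,67,18,4], [77,74,81,71,78,75,68,19,5], [77,70,80,73,83,69,20,6], [77,63,14,7], [77,74,81,71,64,15,8], [77,63,14,7,42,49,58,44,9], [77,70,80,66,17,10], [77,74,67,18,11], [77,74,81,71,78,75,68,19,12], [77,70,80,73,83,69,20,13], [77,63,14], [77,74,81,71,64,15], [77,70,80,73,83,76,79,65,16], [77,70,80,66,17], [77,74,67,18], [77,74,81,71,78,75,68,19], [77,70,80,73,83,69,20], [77,63,14,0,21], [77,63,14,0,21,28,36,22], [77,70,80,66,17,3,24,38,30,23], [77,70,80,66,17,3,24], [77,74,67,18,4,25], [77,74,67,18,4,25,32,40,26], [77,70,63,14,0,21,35,34,41,27], [77,63,14,0,21,28], [77,63,14,0,21,28,36,29], [77,70,80,66,17,3,24,38,30], [77,70,80,66,17,3,24,31], [77,74,67,18,4,25,32], [77,74,67,18,4,25,32,40,33], [77,63,14,0,21,35,34], [77,70,63,14,0,21,35], [77,63,14,0,21,28,36], [77,63,14,0,21,28,36,29,37], [77,70,80,66,17,3,24,38], [77,74,67,18,4,25,39], [77,74,67,18,4,25,32,40],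 [77,70,63,14,7,0,21,35,34,41], [77,63,14,7,42], [77,74,81,71,64,15,8,43], [77,63,14,7,42,49,58,44], [77,70,80,66,17,10,45], [77,74,67,18,11,46], [77,63,14,7,42,56,54,47], [77,70,80,73,83,69,20,13,48], [77,63,14,7,42,49], [77,70,80,66,17,10,45,59,50], [77,63,14,7,42,49,58,51], [77,70,80,66,17,10,45,52], [77,74,67,18,11,46,53], [77,63,14,7,42,56,54], [77,74,67,18,11,46,53,62,55], [77,63,14,7,42,56], [77,74,81,71,64,15,8,43,57], [77,63,14,7,42,49,58], [77,70,80,66,17,10,45,59], [77,74,67,18,11,46,60], [77,63,14,7,42,56,54,61], [77,74,67,18,11,46,53,62], [77,63], [77,74,81,71,64], [77,70,80,73,83,76,79,65], [77,70,80,66], [77,74,67], [77,74,81,71,78,75,68], [77,70,80,73,83,69], [77,70], [77,74,81,71], [77,70,80,73,83,76,79,72], [77,70,80,73], [77,74], [77,74,81,71,78,75], [77,70,80,73,83,76], [], [77,74,81,71,78], [77,70,80,73,83,76,79], [77,70,80], [77,74,81], [77,74,81,71,78,75,82], [77,70,80,73,83]]]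


def QTCox (i : Fin 12) (y : Fin 12 × Fin 7) : List (Fin 12 × Fin 7) :=
  (((dataTCox.getD i.val []).getD (7 * y.1.val + y.2.val) []).map (dec7 12))

theorem trunc_coxeter_uniform : HasUniformPathSystem (trunc coxeterGraph) := by
  refine trunc_of_model coxeterGraph (![0,0,0,1,1,1,2,2,2,3,3,3] : Fin 12 → Fin 4)
    (![1,2,3,0,1,1,0,2,2,0,3,3] : Fin 12 → Fin 4)
    (![0,0,0,0,1,6,0,2,5,0,3,4] : Fin 12 → Fin 7) ?_ ?_ ?_ QTCox ?_ 559 ?_
  · decide +kernel
  · decide +kernel
  · decide +kernel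
  · decide +kernel
  · decide +kernel

/-- Sotteau's question has a positive answer for (a) every Hamiltonian graph, (b) every
vertex-transitive graph of diameter at most two, (c) the Petersen graph, the Coxeter graph and
their truncations. -/
theorem result :
    (∀ (V : Type) [Fintype V] [DecidableEq V] (G : SimpleGraph V), G.Connected →
      G.IsHamiltonian → HasUniformPathSystem G) ∧
    (∀ (V : Type) [Finite V] (G : SimpleGraph V), G.Connected →
      (∀ x y : V, ∃ φ : G ≃g G, φ x = y) →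
      (∀ x y : V, x ≠ y → ¬ G.Adj x y → ∃ z, G.Adj x z ∧ G.Adj z y) →
      HasUniformPathSystem G) ∧
    HasUniformPathSystem petersenGraph ∧ HasUniformPathSystem coxeterGraph ∧
    HasUniformPathSystem (trunc petersenGraph) ∧ HasUniformPathSystem (trunc coxeterGraph) := by
  refine ⟨?_, ?_, petersen_uniform, coxeter_uniform, trunc_petersen_uniform,
    trunc_coxeter_uniform⟩
  · intro V _ _ G hG hH
    exact of_hamiltonian G hG hH
  · intro V _ G hG htrans h2
    classical
    have : Fintype V := Fintype.ofFinite V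
    have : Nonempty V := hG.nonempty
    exact of_diam_two G htrans h2

end Pool.Agent.Results.MP_876e19_co.KnownGraphs
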